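import Pool.Agent.H91.SF.Dens
import Pool.Agent.H59.Zar.Om
import Pool.Agent.H77.SN.Defs

/-!
# The derivative of a class function along exact returns, and (C3)
-/

set_option autoImplicit false

open scoped InnerProductSpace Topology ContDiff
open Set Filter

namespace Pool.Agent.H20.C3

open Pool.Agent.H91.GE hiding G1 G11 Nondeg Br exists_br cF smooth_cF Cfg mem_TSet_of_map
open Pool.Agent.H59.LV Pool.Agent.H59.ND Pool.Agent.H77.ND Pool.Agent.H59.Zar Pool.Agent.H91.SF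

variable {E F N : Type*} [NormedAddCommGroup E] [InnerProductSpace ℝ E] [FiniteDimensional ℝ E]
  [NormedAddCommGroup F] [InnerProductSpace ℝ F] [FiniteDimensional ℝ F]
  [NormedAddCommGroup N] [NormedSpace ℝ N] [FiniteDimensional ℝ N]
  {S : Set E} {A : E × E → E} {K K₂ : NNReal} {Φ : ℝ → E × E → E × E}
  {Ω₁ Ω₂ : Set N} {ψ₁ ψ₂ : N → E} {P₁ P₂ : E →L[ℝ] N} {W₁ W₂ : Set E}

/-- The chart of the end points of the arc of length `L`. -/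
noncomputable def Xe (Φ : ℝ → E × E → E × E) (P₁ P₂ : E →L[ℝ] N) (L : ℝ) (q : E × E) : N × N :=
  (P₁ q.1, P₂ (Φ L q).1)

theorem Xe_smooth (h : GFlow F S A K K₂ Φ) (L : ℝ) : ContDiff ℝ ∞ (Xe Φ P₁ P₂ L) :=
  (P₁.contDiff.comp contDiff_fst).prodMk
    (P₂.contDiff.comp (contDiff_fst.comp (contDiff_flow h L)))

theorem hasFDerivAt_Xe (h : GFlow F S A K K₂ Φ) (L : ℝ) (q : E × E) :
    HasFDerivAt (Xe Φ P₁ P₂ L) ((P₁ ∘L ContinuousLinearMap.fst ℝ E E).prod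
      (P₂ ∘L (ContinuousLinearMap.fst ℝ E E) ∘L fderiv ℝ (Φ L) q)) q := by
  have h1 : HasFDerivAt (Φ L) (fderiv ℝ (Φ L) q) q := (h.flow.differentiable h.vf L q).hasFDerivAt
  have h2 : HasFDerivAt (fun q => (Φ L q).1) ((ContinuousLinearMap.fst ℝ E E) ∘L fderiv ℝ (Φ L) q)
      q := HasFDerivAt.comp q (g := fun y : E × E => y.1) hasFDerivAt_fst h1
  have h3 : HasFDerivAt (fun q : E × E => P₁ q.1) (P₁ ∘L ContinuousLinearMap.fst ℝ E E) q :=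
    HasFDerivAt.comp q (g := P₁) P₁.hasFDerivAt hasFDerivAt_fst
  exact h3.prodMk (HasFDerivAt.comp q (g := P₂) P₂.hasFDerivAt h2)

/-- Exact returns in the chart. -/
theorem Xe_rp (h : GFlow F S A K K₂ Φ) (hp₁ : Patch S Ω₁ ψ₁ P₁ W₁) (hp₂ : Patch S Ω₂ ψ₂ P₂ W₂)
    {x : N × N} {w : N} (h1 : x.1 ∈ Ω₁) (h2 : x.2 ∈ Ω₂) (h3 : G1 Φ ψ₁ (x.1, w) 1 = ψ₂ x.2)
    (hw : w ≠ 0) : Xe Φ P₁ P₂ ‖fderiv ℝ ψ₁ x.1 w‖ (rp Φ ψ₁ x w).1 = x := by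
  obtain ⟨-, -, r3⟩ := rp_eq h hp₁ h1 hw
  refine Prod.ext (hp₁.left _ h1) ?_
  show P₂ (Φ ‖fderiv ℝ ψ₁ x.1 w‖ (rp Φ ψ₁ x w).1).1 = x.2
  rw [← r3]
  show P₂ (G1 Φ ψ₁ (x.1, w) 1) = x.2
  rw [h3]
  exact hp₂.left _ h2

/-- Near an exact return the branch is given by the vectors `L • q.2`. -/
theorem br_near (h : GFlow F S A K K₂ Φ) (hp₁ : Patch S Ω₁ ψ₁ P₁ W₁) (hp₂ : Patch S Ω₂ ψ₂ P₂ W₂)
    {O : Set (N × N)} {V : Set N} {κ : N × N → N} (hb : Br Φ Ω₁ Ω₂ ψ₁ ψ₂ O V κ) {x : N × N}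
    (hx : x ∈ O) (hw : κ x ≠ 0) :
    ∃ U ∈ 𝓝 (rp Φ ψ₁ x (κ x)).1, (∀ q ∈ U, Xe Φ P₁ P₂ ‖fderiv ℝ ψ₁ x.1 (κ x)‖ q ∈ O) ∧
      ∀ q ∈ U, q ∈ UT S → ∀ t : ℝ, cF Φ ψ₁ κ (Xe Φ P₁ P₂ ‖fderiv ℝ ψ₁ x.1 (κ x)‖ q) t
        = (Φ (‖fderiv ℝ ψ₁ x.1 (κ x)‖ * t) q).1 := by
  obtain ⟨m1, m2, m3, m4⟩ := hb.mem x hx
  obtain ⟨r1, r2, r3⟩ := rp_eq h hp₁ m1 hw
  have hX := Xe_rp h hp₁ hp₂ m1 m2 m4 hw
  set L : ℝ := ‖fderiv ℝ ψ₁ x.1 (κ x)‖ with hL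
  set w₀ : E × E := (rp Φ ψ₁ x (κ x)).1 with hw₀
  have hXc : ContinuousAt (Xe Φ P₁ P₂ L) w₀ := (Xe_smooth h L).continuous.continuousAt
  have e1 : ∀ᶠ q in 𝓝 w₀, Xe Φ P₁ P₂ L q ∈ O :=
    hXc.preimage_mem_nhds (by rw [hX]; exact hb.isOpen.mem_nhds hx)
  have e2 : ∀ᶠ q : E × E in 𝓝 w₀, q.1 ∈ W₁ :=
    continuousAt_fst.preimage_mem_nhds (hp₁.V_open.mem_nhds (hp₁.maps _ m1))
  have e3 : ∀ᶠ q : E × E in 𝓝 w₀, (Φ L q).1 ∈ W₂ := by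
    have hc : Continuous fun q => (Φ L q).1 := continuous_fst.comp (contDiff_flow h L).continuous
    refine hc.continuousAt.preimage_mem_nhds (hp₂.V_open.mem_nhds ?_)
    rw [← r3]
    show G1 Φ ψ₁ (x.1, κ x) 1 ∈ W₂
    rw [m4]
    exact hp₂.maps _ m2
  have e4 : ∀ᶠ q : E × E in 𝓝 w₀, P₁ (L • q.2) ∈ V := by
    have hc : Continuous fun q : E × E => P₁ (L • q.2) := by fun_prop
    refine hc.continuousAt.preimage_mem_nhds (hb.V_open.mem_nhds ?_)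
    show P₁ (L • (L⁻¹ • fderiv ℝ ψ₁ x.1 (κ x))) ∈ V
    rw [smul_smul, mul_inv_cancel₀ r2.ne', one_smul, hp₁.κ_fderiv m1]
    exact m3
  refine ⟨{q | Xe Φ P₁ P₂ L q ∈ O ∧ q.1 ∈ W₁ ∧ (Φ L q).1 ∈ W₂ ∧ P₁ (L • q.2) ∈ V},
    by filter_upwards [e1, e2, e3, e4] with q h1 h2 h3 h4 using ⟨h1, h2, h3, h4⟩,
    fun q hq => hq.1, ?_⟩
  rintro q ⟨h1, h2, h3, h4⟩ hqU t
  have hT : (q.1, L • q.2) ∈ TSet S := scale_TSet hqU.1 h.sub L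
  obtain ⟨k1, k2, k3⟩ := hp₁.of_TSet h2 hT
  have hgeo : ∀ t : ℝ, G1 Φ ψ₁ (P₁ q.1, P₁ (L • q.2)) t = (Φ (L * t) q).1 := by
    intro t
    show Geo Φ (ψ₁ (P₁ q.1)) (fderiv ℝ ψ₁ (P₁ q.1) (P₁ (L • q.2))) t = _
    rw [k2, k3]
    have hn : ‖L • q.2‖ ≤ 2 * L := by
      rw [norm_smul, show ‖q.2‖ = 1 from hqU.2, mul_one, Real.norm_of_nonneg r2.le]
      linarith
    rw [(h.Geo_eq hT r2 hn t).1, smul_smul, inv_mul_cancel₀ r2.ne', one_smul]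
  have hend : (Φ L q).1 ∈ S := fst_mem_TSet (flow_mem_UT h hqU L).1
  have hu := hb.uniq (Xe Φ P₁ P₂ L q) h1 (P₁ (L • q.2)) h4 (by
    show G1 Φ ψ₁ (P₁ q.1, P₁ (L • q.2)) 1 = ψ₂ (P₂ (Φ L q).1)
    rw [hgeo, mul_one, (hp₂.right _ hend h3).2])
  show G1 Φ ψ₁ (P₁ q.1, κ (Xe Φ P₁ P₂ L q)) t = _
  rw [← hu]
  exact hgeo t

/-- The derivative of a class function along exact returns. -/
theorem zeta_flow (h : GFlow F S A K K₂ Φ) (hp₁ : Patch S Ω₁ ψ₁ P₁ W₁)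
    (hp₂ : Patch S Ω₂ ψ₂ P₂ W₂) {ζ : N × N → E} {O : Set (N × N)} {V : Set N} {κ : N × N → N}
    {θ : N × N → ℝ} (hl : Lf Φ Ω₁ Ω₂ ψ₁ ψ₂ ζ O V κ θ) {x : N × N} (hx : x ∈ O) {O' : Set (N × N)}
    (hO' : IsOpen O') (hζ : ContDiffOn ℝ ∞ ζ O') (hxO' : x ∈ O')
    (hw : κ x ≠ 0) : ∃ r : (E × E) → ℝ, ∀ a ∈ ZT (UT S) (rp Φ ψ₁ x (κ x)).1,
      fderiv ℝ ζ x (P₁ a.1, P₂ (fderiv ℝ (Φ ‖fderiv ℝ ψ₁ x.1 (κ x)‖) (rp Φ ψ₁ x (κ x)).1 a).1)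
        = (fderiv ℝ (Φ (‖fderiv ℝ ψ₁ x.1 (κ x)‖ * θ x)) (rp Φ ψ₁ x (κ x)).1 a).1
          + r a • (Φ (‖fderiv ℝ ψ₁ x.1 (κ x)‖ * θ x) (rp Φ ψ₁ x (κ x)).1).2 := by
  obtain ⟨m1, m2, m3, m4⟩ := hl.mem x hx
  have hX := Xe_rp h hp₁ hp₂ m1 m2 m4 hw
  obtain ⟨U, hU, hUO, hUq⟩ := br_near h hp₁ hp₂ hl.toBr hx hw
  set L : ℝ := ‖fderiv ℝ ψ₁ x.1 (κ x)‖ with hL
  set w₀ : E × E := (rp Φ ψ₁ x (κ x)).1 with hw₀
  have hXd := hasFDerivAt_Xe (P₁ := P₁) (P₂ := P₂) h L w₀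
  have hXc : ContinuousAt (Xe Φ P₁ P₂ L) w₀ := hXd.continuousAt
  set T : E × E → ℝ := fun q => L * θ (Xe Φ P₁ P₂ L q) with hT
  have hTx : T w₀ = L * θ x := by rw [hT]; simp only; rw [hX]
  set U' : Set (E × E) := (Xe Φ P₁ P₂ L) ⁻¹' (O ∩ O') with hU'
  have hU'o : IsOpen U' := (hl.isOpen.inter hO').preimage (Xe_smooth h L).continuous
  have hw₀U' : w₀ ∈ U' := by rw [hU', mem_preimage, hX]; exact ⟨hx, hxO'⟩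
  have hTs : ContDiffOn ℝ ∞ T U' :=
    contDiffOn_const.mul (hl.smooth_θ.comp (Xe_smooth h L).contDiffOn fun q hq => hq.1)
  have hζs : ContDiffOn ℝ ∞ (fun q => ζ (Xe Φ P₁ P₂ L q)) U' :=
    hζ.comp (Xe_smooth h L).contDiffOn fun q hq => hq.2
  have hΦs : ContDiffOn ℝ ∞ (fun q => (Φ (T q) q).1) U' :=
    contDiff_fst.comp_contDiffOn (h.contDiff.comp_contDiffOn (hTs.prodMk contDiffOn_id))
  -- derivatives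
  have hθd : HasFDerivAt θ (fderiv ℝ θ x) (Xe Φ P₁ P₂ L w₀) := by
    rw [hX]; exact hasFDerivAt_of_open hl.isOpen hl.smooth_θ hx
  have hTd : HasFDerivAt T (fderiv ℝ T w₀) w₀ := hasFDerivAt_of_open hU'o hTs hw₀U'
  have hζd : HasFDerivAt (fun q => ζ (Xe Φ P₁ P₂ L q)) ((fderiv ℝ ζ x) ∘L
      ((P₁ ∘L ContinuousLinearMap.fst ℝ E E).prod
      (P₂ ∘L (ContinuousLinearMap.fst ℝ E E) ∘L fderiv ℝ (Φ L) w₀))) w₀ := by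
    have h1 : HasFDerivAt ζ (fderiv ℝ ζ x) (Xe Φ P₁ P₂ L w₀) := by
      rw [hX]; exact hasFDerivAt_of_open hO' hζ hxO'
    exact HasFDerivAt.comp w₀ h1 hXd
  have hΦd : HasFDerivAt (fun q => Φ (T q) q)
      (((ContinuousLinearMap.fst ℝ ℝ (E × E)).smulRight ((Φ (T w₀) w₀).2, A (Φ (T w₀) w₀))
        + (fderiv ℝ (Φ (T w₀)) w₀) ∘L (ContinuousLinearMap.snd ℝ ℝ (E × E)))
        ∘L ((fderiv ℝ T w₀).prod (ContinuousLinearMap.id ℝ (E × E)))) w₀ := by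
    have h1 := h.flow.hasFDerivAt h.vf (T w₀) w₀
    exact HasFDerivAt.comp w₀ (g := fun x : ℝ × (E × E) => Φ x.1 x.2) (f := fun q => (T q, q)) h1
      (hTd.prodMk (hasFDerivAt_id w₀))
  have hΦd1 : HasFDerivAt (fun q => (Φ (T q) q).1) ((ContinuousLinearMap.fst ℝ E E) ∘L
      (((ContinuousLinearMap.fst ℝ ℝ (E × E)).smulRight ((Φ (T w₀) w₀).2, A (Φ (T w₀) w₀))
        + (fderiv ℝ (Φ (T w₀)) w₀) ∘L (ContinuousLinearMap.snd ℝ ℝ (E × E)))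
        ∘L ((fderiv ℝ T w₀).prod (ContinuousLinearMap.id ℝ (E × E))))) w₀ :=
    HasFDerivAt.comp w₀ (g := fun y : E × E => y.1) hasFDerivAt_fst hΦd
  have hfd := hζd.sub hΦd1
  refine ⟨fun a => fderiv ℝ T w₀ a, fun a ha => ?_⟩
  have h0 := fderiv_eq_zero' (R := UT S) (U := U ∩ U') (inter_mem hU (hU'o.mem_nhds hw₀U'))
    ((hζs.sub hΦs).mono inter_subset_right) (fun q hq hqU => by
      show ζ (Xe Φ P₁ P₂ L q) - (Φ (T q) q).1 = 0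
      rw [← hl.cross _ hqU.2.1, hUq q hqU.1 hq, sub_self]) ha
  have h1 : fderiv ℝ ((fun q => ζ (Xe Φ P₁ P₂ L q)) - fun q => (Φ (T q) q).1) w₀ a = 0 := h0
  rw [hfd.fderiv] at h1
  have h2 : fderiv ℝ ζ x (P₁ a.1, P₂ (fderiv ℝ (Φ L) w₀ a).1)
      - (fderiv ℝ T w₀ a • (Φ (T w₀) w₀).2 + (fderiv ℝ (Φ (T w₀)) w₀ a).1) = 0 := h1
  rw [hTx] at h2
  rw [sub_eq_zero.1 h2, add_comm]

/-- **(C3)** in charts: the Jacobi fields along the class geodesic which are tangent to it at the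
crossing point form an isotropic space. -/
theorem c3_chart (hdim : Module.finrank ℝ E = Module.finrank ℝ F + Module.finrank ℝ N)
    (h : GFlow F S A K K₂ Φ) (hp₁ : Patch S Ω₁ ψ₁ P₁ W₁) (hp₂ : Patch S Ω₂ ψ₂ P₂ W₂)
    {O : Set (N × N)} {ζ : N × N → E} (hO : IsOpen O) (hg : Germ S O ζ) {x : N × N} (hx : x ∈ O)
    {w : N} {e : ℝ} (hc : CR Φ Ω₁ Ω₂ ψ₁ ψ₂ ζ x w e) {a b : E × E}
    (ha : a ∈ ZT (UT S) (rp Φ ψ₁ x w).1) (hb : b ∈ ZT (UT S) (rp Φ ψ₁ x w).1) {c d : ℝ}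
    (hac : fderiv ℝ ζ x (P₁ a.1, P₂ (fderiv ℝ (Φ ‖fderiv ℝ ψ₁ x.1 w‖) (rp Φ ψ₁ x w).1 a).1)
      = c • fderiv ℝ ζ x (w, 0))
    (hbd : fderiv ℝ ζ x (P₁ b.1, P₂ (fderiv ℝ (Φ ‖fderiv ℝ ψ₁ x.1 w‖) (rp Φ ψ₁ x w).1 b).1)
      = d • fderiv ℝ ζ x (w, 0)) : om a b = 0 := by
  obtain ⟨hcfg, hw0, O₂, V, κ, θ, hl, hxO₂, hκ, -, -, he⟩ := hc
  subst hκ
  obtain ⟨r, hr⟩ := zeta_flow h hp₁ hp₂ hl hxO₂ hO hg.smooth hx hw0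
  obtain ⟨r1, r2, r3⟩ := rp_eq h hp₁ hcfg.1 hw0
  have hra := hr a ha
  have hrb := hr b hb
  set L : ℝ := ‖fderiv ℝ ψ₁ x.1 (κ x)‖ with hL
  set w₀ : E × E := (rp Φ ψ₁ x (κ x)).1 with hw₀
  -- the velocity at the crossing point
  have hT : (ψ₁ x.1, fderiv ℝ ψ₁ x.1 (κ x)) ∈ TSet S := hp₁.mem_TSet h.sub hcfg.1 _
  have hv : deriv (G1 Φ ψ₁ (x.1, κ x)) (θ x) = L • (Φ (L * θ x) w₀).2 :=
    (h.Geo_eq hT r2 (by linarith) (θ x)).2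
  rw [hac, he, hv, smul_smul, smul_smul] at hra
  rw [hbd, he, hv, smul_smul, smul_smul] at hrb
  set v : E × E := Φ (L * θ x) w₀ with hvdef
  have ha2 : (fderiv ℝ (Φ (L * θ x)) w₀ a).1 = (c * e * L - r a) • v.2 := by
    rw [sub_smul, eq_sub_iff_add_eq]
    exact hra.symm
  have hb2 : (fderiv ℝ (Φ (L * θ x)) w₀ b).1 = (d * e * L - r b) • v.2 := by
    rw [sub_smul, eq_sub_iff_add_eq]
    exact hrb.symm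
  have hdim' : Module.finrank ℝ F ≤ Module.finrank ℝ E := by omega
  rw [← om_flowU h hdim' r1 ha hb (L * θ x), om_apply, ha2, hb2, inner_smul_left, inner_smul_left,
    inner_snd (flow_ZTU_mem h hb _), inner_snd (flow_ZTU_mem h ha _)]
  simp

end Pool.Agent.H20.C3
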